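import Pool.Agent.Helper626.JNot

namespace Pool.Agent.Results.MP_18cfb4_lc.GenuineDelta3Cut

open Pool.Agent.Helper626

/-- There is a model `M` of `PA⁻` with exponentiation, `IΣ_1` and `BΣ_2` in which `IΣ_2` fails
(so `M` is a `BΣ_2` model) and which has a cut `J` that is `Δ_3` (definable with parameters both by
a `Σ_3` and by a `Π_3` formula) but neither `Σ_2` nor `Π_2`. -/
theorem result : ∃ (M : Type) (_ : ArithOps M),
    PAminusExp M ∧ ISigma true 1 M ∧ BSigma true 2 M ∧ ¬ ISigma true 2 M ∧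
    ∃ J : Set M, IsCut J ∧ SigmaDef true 3 J ∧ PiDef true 3 J ∧
      ¬ SigmaDef true 2 J ∧ ¬ PiDef true 2 J :=
  exists_genuine true

end Pool.Agent.Results.MP_18cfb4_lc.GenuineDelta3Cut
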